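import Pool.Agent.ZP3.StmtsP

/-!
Squad ZP3 (MP_6e1a06_nt), row FGS: closure properties of power series with finitely generated
coefficients.
-/

set_option autoImplicit false

namespace Pool.Agent.ZP3.H23

open Pool.Agent.ZPT

theorem mono {S T : Finset Qb} (h : S ⊆ T) {x : Qb} (hx : x ∈ Subring.closure (S : Set Qb)) :
    x ∈ Subring.closure (T : Set Qb) :=
  Subring.closure_mono (by exact_mod_cast h) hx

theorem two {f g : PowerSeries Qb} (hf : FG f) (hg : FG g) : ∃ S : Finset Qb,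
    (∀ n, PowerSeries.coeff n f ∈ Subring.closure (S : Set Qb)) ∧
      ∀ n, PowerSeries.coeff n g ∈ Subring.closure (S : Set Qb) := by
  classical
  obtain ⟨S, hS⟩ := hf
  obtain ⟨T, hT⟩ := hg
  exact ⟨S ∪ T, fun n => mono Finset.subset_union_left (hS n),
    fun n => mono Finset.subset_union_right (hT n)⟩

theorem fg_neg {f : PowerSeries Qb} (hf : FG f) : FG (-f) := by
  obtain ⟨S, hS⟩ := hf
  exact ⟨S, fun n => by rw [map_neg]; exact Subring.neg_mem _ (hS n)⟩

theorem fg_add {f g : PowerSeries Qb} (hf : FG f) (hg : FG g) : FG (f + g) := by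
  obtain ⟨S, h1, h2⟩ := two hf hg
  exact ⟨S, fun n => by rw [map_add]; exact Subring.add_mem _ (h1 n) (h2 n)⟩

theorem fg_sub {f g : PowerSeries Qb} (hf : FG f) (hg : FG g) : FG (f - g) := by
  obtain ⟨S, h1, h2⟩ := two hf hg
  exact ⟨S, fun n => by rw [map_sub]; exact Subring.sub_mem _ (h1 n) (h2 n)⟩

theorem fg_mul {f g : PowerSeries Qb} (hf : FG f) (hg : FG g) : FG (f * g) := by
  obtain ⟨S, h1, h2⟩ := two hf hg
  exact ⟨S, fun n => by
    rw [PowerSeries.coeff_mul]
    exact Subring.sum_mem _ fun x _ => Subring.mul_mem _ (h1 _) (h2 _)⟩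

theorem fg_C (a : Qb) : FG (PowerSeries.C a) := by
  refine ⟨{a}, fun n => ?_⟩
  rw [PowerSeries.coeff_C]
  split_ifs
  · exact Subring.subset_closure (by simp)
  · exact Subring.zero_mem _

theorem fg_X : FG (PowerSeries.X : PowerSeries Qb) := by
  refine ⟨∅, fun n => ?_⟩
  rw [PowerSeries.coeff_X]
  split_ifs
  · exact Subring.one_mem _
  · exact Subring.zero_mem _

theorem fg_inv {f : PowerSeries Qb} (hf : FG f) : FG f⁻¹ := by
  classical
  obtain ⟨S, hS⟩ := hf
  refine ⟨insert (PowerSeries.constantCoeff f)⁻¹ S, fun n => ?_⟩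
  have h0 : (PowerSeries.constantCoeff f)⁻¹ ∈
      Subring.closure ((insert (PowerSeries.constantCoeff f)⁻¹ S : Finset Qb) : Set Qb) :=
    Subring.subset_closure (by simp)
  have hS' : ∀ n, PowerSeries.coeff n f ∈
      Subring.closure ((insert (PowerSeries.constantCoeff f)⁻¹ S : Finset Qb) : Set Qb) :=
    fun n => mono (Finset.subset_insert _ _) (hS n)
  induction n using Nat.strong_induction_on with
  | _ n ih =>
    rw [PowerSeries.coeff_inv]
    split_ifs with hn
    · exact h0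
    · refine Subring.mul_mem _ (Subring.neg_mem _ h0) (Subring.sum_mem _ fun x _ => ?_)
      split_ifs with hx
      · exact Subring.mul_mem _ (hS' _) (ih _ hx)
      · exact Subring.zero_mem _

theorem fg_expand (m : ℕ) (hm : m ≠ 0) {f : PowerSeries Qb} (hf : FG f) :
    FG (PowerSeries.expand m hm f) := by
  obtain ⟨S, hS⟩ := hf
  refine ⟨S, fun n => ?_⟩
  rw [PowerSeries.coeff_expand]
  split_ifs
  · exact hS _
  · exact Subring.zero_mem _

theorem fg_of_X_pow_mul (k : ℕ) {f : PowerSeries Qb} (hf : FG (PowerSeries.X ^ k * f)) : FG f := by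
  obtain ⟨S, hS⟩ := hf
  refine ⟨S, fun n => ?_⟩
  have h := hS (n + k)
  rwa [PowerSeries.coeff_X_pow_mul] at h

/-- Row FGS. -/
theorem fgs : FGSStmt :=
  ⟨fun _ _ hf hg => ⟨fg_add hf hg, fg_mul hf hg, fg_neg hf, fg_sub hf hg⟩, fg_C, fg_X,
    fun _ hf _ => fg_inv hf, fun m hm _ hf => fg_expand m hm hf, fun k _ hf => fg_of_X_pow_mul k hf⟩

end Pool.Agent.ZP3.H23
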