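import Pool.Agent.ZP3.StmtsP

/-!
Squad ZP3 (MP_6e1a06_nt), row NTP: at most two large coordinates.
-/

set_option autoImplicit false

namespace Pool.Agent.ZP3.H23

open Pool.Agent.ZPT

/-- A polynomial with a strictly dominant monomial has no zero. -/
theorem dominant {K : Type} [NormedField K] [IsUltrametricDist K] {n : ℕ}
    (G : MvPolynomial (Fin n) K) (m0 : Fin n →₀ ℕ) (f : Fin n → K)
    (hcoef : ∀ m, ‖MvPolynomial.coeff m G‖ ≤ 1) (htop : MvPolynomial.coeff m0 G = 1)
    (hsup : ∀ m ∈ G.support, ∀ l, m l ≤ m0 l) (hbig : ∀ l, m0 l ≠ 0 → 1 < ‖f l‖)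
    (hf : MvPolynomial.eval f G = 0) : False := by
  classical
  set T : (Fin n →₀ ℕ) → K := fun m => MvPolynomial.coeff m G * ∏ l, f l ^ m l with hT
  have hT0 : ‖T m0‖ = ∏ l, ‖f l‖ ^ m0 l := by
    rw [hT]
    simp only
    rw [htop, one_mul, norm_prod]
    exact Finset.prod_congr rfl fun l _ => norm_pow _ _
  have hpos : 0 < ‖T m0‖ := by
    rw [hT0]
    refine Finset.prod_pos fun l _ => ?_
    by_cases h : m0 l = 0
    · rw [h, pow_zero]
      exact one_pos
    · exact pow_pos (one_pos.trans (hbig l h)) _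
  have hlt : ∀ m ∈ G.support.erase m0, ‖T m‖ < ‖T m0‖ := by
    intro m hm
    obtain ⟨hne, hms⟩ := Finset.mem_erase.1 hm
    have hle := hsup m hms
    have hprod : ∏ l, ‖f l‖ ^ m l < ∏ l, ‖f l‖ ^ m0 l := by
      refine Finset.prod_lt_prod (fun l _ => ?_) (fun l _ => ?_) ?_
      · by_cases h : m0 l = 0
        · have h1 : m l = 0 := Nat.le_zero.1 (h ▸ hle l)
          rw [h1, pow_zero]
          exact one_pos
        · exact pow_pos (one_pos.trans (hbig l h)) _
      · by_cases h : m0 l = 0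
        · have h1 : m l = 0 := Nat.le_zero.1 (h ▸ hle l)
          rw [h1, h]
        · exact pow_le_pow_right₀ (hbig l h).le (hle l)
      · have : ∃ l, m l < m0 l := by
          by_contra hno
          push Not at hno
          exact hne (Finsupp.ext fun l => le_antisymm (hle l) (hno l))
        obtain ⟨l, hl⟩ := this
        have h : m0 l ≠ 0 := by omega
        exact ⟨l, Finset.mem_univ l, pow_lt_pow_right₀ (hbig l h) hl⟩
    have hn : ‖T m‖ ≤ ∏ l, ‖f l‖ ^ m l := by
      rw [hT]
      simp only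
      rw [norm_mul, norm_prod]
      calc ‖MvPolynomial.coeff m G‖ * ∏ l, ‖f l ^ m l‖
          ≤ 1 * ∏ l, ‖f l ^ m l‖ :=
            mul_le_mul_of_nonneg_right (hcoef m) (Finset.prod_nonneg fun _ _ => norm_nonneg _)
        _ = ∏ l, ‖f l‖ ^ m l := by
            rw [one_mul]
            exact Finset.prod_congr rfl fun l _ => norm_pow _ _
    rw [hT0]
    exact hn.trans_lt hprod
  have hmem : m0 ∈ G.support := by
    rw [MvPolynomial.mem_support_iff, htop]
    exact one_ne_zero
  rw [MvPolynomial.eval_eq', ← Finset.add_sum_erase _ _ hmem] at hf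
  have hsum : T m0 = -∑ m ∈ G.support.erase m0, T m := eq_neg_of_add_eq_zero_left hf
  have hnorm : ‖T m0‖ = ‖∑ m ∈ G.support.erase m0, T m‖ := by
    rw [hsum, norm_neg]
  rcases (G.support.erase m0).eq_empty_or_nonempty with h | h
  · rw [h, Finset.sum_empty, norm_zero] at hnorm
    exact absurd hnorm hpos.ne'
  · obtain ⟨m, hm, hle⟩ := IsUltrametricDist.exists_norm_finsetSum_le_of_nonempty h T
    exact absurd (hnorm.le.trans hle) (not_le.2 (hlt m hm))

/-- Row NTP. -/
theorem ntp (hLA : LAStmt) (hGR : GRStmt) : NTPStmt := by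
  classical
  intro n P hQ hNT
  have hG : ∀ i j k : Fin n, ∃ (G : MvPolynomial (Fin n) Qb) (m0 : Fin n →₀ ℕ),
      i ≠ j → j ≠ k → i ≠ k →
      MvPolynomial.map (algebraMap Qb ℂ) G ∈ P ∧ (∀ m ∈ G.support, ∀ l, m l ≤ m0 l) ∧
      MvPolynomial.coeff m0 G = 1 ∧ ∀ l, m0 l ≠ 0 → l = i ∨ l = j ∨ l = k := by
    intro i j k
    by_cases hc : i ≠ j ∧ j ≠ k ∧ i ≠ k
    swap
    · exact ⟨0, 0, fun h1 h2 h3 => absurd ⟨h1, h2, h3⟩ hc⟩
    obtain ⟨hij, hjk, hik⟩ := hc
    obtain ⟨G, hGP, hv, hne⟩ := hNT i j k hij hjk hik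
    obtain ⟨m0, hm0⟩ : ∃ m0 : Fin n →₀ ℕ, m0 =
      Finsupp.single i (MvPolynomial.degreeOf i G) + Finsupp.single j (MvPolynomial.degreeOf j G) +
      Finsupp.single k (MvPolynomial.degreeOf k G) := ⟨_, rfl⟩
    rw [← hm0] at hne
    obtain ⟨g', hg'P, hg'a, hg'c, hg's⟩ := hLA n P hQ G hGP m0 hne
    have h1 : g' ∈ Set.range (MvPolynomial.map (σ := Fin n) (algebraMap Qb ℂ)) := by
      refine MvPolynomial.mem_range_map_iff_coeffs_subset.2 fun y hy => ?_
      obtain ⟨m, -, rfl⟩ := MvPolynomial.mem_coeffs_iff.1 hy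
      exact ⟨⟨_, (mem_algebraicClosure_iff).2 (hg'a m)⟩, rfl⟩
    obtain ⟨G', hG'⟩ := h1
    have hm0i : m0 i = MvPolynomial.degreeOf i G := by
      rw [hm0, Finsupp.add_apply, Finsupp.add_apply, Finsupp.single_eq_same,
        Finsupp.single_eq_of_ne hij, Finsupp.single_eq_of_ne hik, add_zero, add_zero]
    have hm0j : m0 j = MvPolynomial.degreeOf j G := by
      rw [hm0, Finsupp.add_apply, Finsupp.add_apply, Finsupp.single_eq_same,
        Finsupp.single_eq_of_ne hij.symm, Finsupp.single_eq_of_ne hjk, add_zero, zero_add]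
    have hm0k : m0 k = MvPolynomial.degreeOf k G := by
      rw [hm0, Finsupp.add_apply, Finsupp.add_apply, Finsupp.single_eq_same,
        Finsupp.single_eq_of_ne hik.symm, Finsupp.single_eq_of_ne hjk.symm, zero_add, zero_add]
    refine ⟨G', m0, fun _ _ _ => ⟨by rw [hG']; exact hg'P, fun m hm l => ?_, ?_, fun l hl => ?_⟩⟩
    · have hmG : m ∈ G.support := by
        refine hg's ?_
        rw [MvPolynomial.mem_support_iff] at hm ⊢
        rw [← hG', MvPolynomial.coeff_map]
        exact (_root_.map_ne_zero _).2 hm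
      by_cases hli : l = i
      · rw [hli, hm0i]
        exact MvPolynomial.monomial_le_degreeOf i hmG
      by_cases hlj : l = j
      · rw [hlj, hm0j]
        exact MvPolynomial.monomial_le_degreeOf j hmG
      by_cases hlk : l = k
      · rw [hlk, hm0k]
        exact MvPolynomial.monomial_le_degreeOf k hmG
      have hlv : l ∉ G.vars := by
        intro hl
        have := hv hl
        simp only [Finset.mem_insert, Finset.mem_singleton] at this
        tauto
      have h0 : m l = 0 := MvPolynomial.mem_support_notMem_vars_zero hmG hlv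
      rw [h0]
      exact Nat.zero_le _
    · have h2 : algebraMap Qb ℂ (MvPolynomial.coeff m0 G') = algebraMap Qb ℂ 1 := by
        rw [← MvPolynomial.coeff_map, hG', hg'c, map_one]
      exact (algebraMap Qb ℂ).injective h2
    · by_contra hno
      push Not at hno
      apply hl
      rw [hm0, Finsupp.add_apply, Finsupp.add_apply, Finsupp.single_eq_of_ne hno.1,
        Finsupp.single_eq_of_ne hno.2.1, Finsupp.single_eq_of_ne hno.2.2, add_zero, add_zero]
  choose G m0 hG using hG
  obtain ⟨S, hS⟩ : ∃ S : Finset ℂ, S = Finset.univ.biUnion fun i : Fin n =>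
    Finset.univ.biUnion fun j : Fin n => Finset.univ.biUnion fun k : Fin n =>
      (G i j k).support.image fun m => ((MvPolynomial.coeff m (G i j k) : Qb) : ℂ) := ⟨_, rfl⟩
  obtain ⟨p₀, hp₀⟩ := hGR S (by
    intro g hg
    rw [hS] at hg
    simp only [Finset.mem_biUnion, Finset.mem_image, Finset.mem_univ, true_and] at hg
    obtain ⟨i, j, k, m, -, rfl⟩ := hg
    exact (mem_algebraicClosure_iff).1 (MvPolynomial.coeff m (G i j k)).2)
  refine ⟨p₀, fun p hp hpp K _ _ _ hExt ι x hx i j k hij hjk hik => ?_⟩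
  by_contra hcon
  push Not at hcon
  obtain ⟨hi, hj, hk⟩ := hcon
  obtain ⟨hGP, hs, hc, hl⟩ := hG i j k hij hjk hik
  refine dominant (MvPolynomial.map ι (G i j k)) (m0 i j k) (fun l => ι (x l)) ?_ ?_ ?_ ?_ ?_
  · intro m
    rw [MvPolynomial.coeff_map]
    by_cases hm : m ∈ (G i j k).support
    · refine hp₀ p hp hpp K hExt ι _ ?_
      rw [hS]
      simp only [Finset.mem_biUnion, Finset.mem_image, Finset.mem_univ, true_and]
      exact ⟨i, j, k, m, hm, rfl⟩
    · rw [MvPolynomial.notMem_support_iff.1 hm, map_zero, norm_zero]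
      exact zero_le_one
  · rw [MvPolynomial.coeff_map, hc, map_one]
  · intro m hm
    refine hs m ?_
    rw [MvPolynomial.mem_support_iff] at hm ⊢
    intro h0
    rw [MvPolynomial.coeff_map, h0, map_zero] at hm
    exact hm rfl
  · intro l hl0
    rcases hl l hl0 with h | h | h
    · rw [h]
      exact hi
    · rw [h]
      exact hj
    · rw [h]
      exact hk
  · have h1 := hx _ hGP
    rw [MvPolynomial.eval_map] at h1
    have h2 : algebraMap Qb ℂ (MvPolynomial.eval x (G i j k)) = 0 := by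
      rw [← h1, MvPolynomial.eval, MvPolynomial.coe_eval₂Hom, MvPolynomial.hom_eval₂]
      rfl
    have h3 : MvPolynomial.eval x (G i j k) = 0 :=
      (algebraMap Qb ℂ).injective (by rw [h2, map_zero])
    have h4 : ι (MvPolynomial.eval x (G i j k)) = 0 := by rw [h3, map_zero]
    rw [MvPolynomial.eval_map, ← h4, MvPolynomial.eval, MvPolynomial.coe_eval₂Hom,
      MvPolynomial.hom_eval₂]
    rfl

end Pool.Agent.ZP3.H23
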